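import Mathlib
import Pool.Agent.H.MP_e52bc6_co.C

namespace Pool.Agent.Results.MP_e52bc6_co.Exact

open Pool.Agent.H.MP_e52bc6_co Filter

/-- the values of the total domination number on the graphs of order `n` in the class -/
def vals (n : ℕ) : Set ℕ := {k | ∃ G : SimpleGraph (Fin n), InC G ∧ gt G = k}

lemma up {n : ℕ} (hn : 30 ≤ n) {G : SimpleGraph (Fin n)} (h : InC G) :
    6 ∣ n ∧ gt G ≤ n / 3 + 2 * ((n + 6) / 36) := by
  obtain ⟨ι, _, _, ⟨T⟩⟩ := exists_TS h (by simp; omega)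
  have h1 := T.card_in Finset.univ
  obtain ⟨⟨m, h2⟩, h3⟩ := T.upper h.1
  simp only [Finset.mem_univ, Finset.filter_true, Finset.card_univ, Fintype.card_fin] at h1
  omega

lemma main {n : ℕ} (hn : 30 ≤ n) (h : 6 ∣ n) :
    IsGreatest (vals n) (n / 3 + 2 * ((n + 6) / 36)) := by
  refine ⟨?_, fun k ⟨G, h, e⟩ => e ▸ (up hn h).2⟩
  obtain ⟨j, i, hi, rfl⟩ : ∃ j i, i < 6 ∧ n = 36 * j + 30 + 6 * i :=
    ⟨(n - 30) / 36, (n - 30) % 36 / 6, by omega, by omega⟩
  obtain ⟨G, h1, h2⟩ := constr j i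
  exact ⟨G, h1, le_antisymm (up hn h1).2 (by omega)⟩

theorem result : (∀ n, 30 ≤ n → ((∃ G : SimpleGraph (Fin n), InC G) ↔ 6 ∣ n) ∧
      (6 ∣ n → IsGreatest (vals n) (n / 3 + 2 * ((n + 6) / 36)))) ∧
    limsup (fun n : ℕ => ((sSup (vals n) : ℕ) : ℝ) / n)
      (atTop ⊓ principal {n | ∃ G : SimpleGraph (Fin n), InC G}) = 7 / 18 := by
  have A : ∀ n, 30 ≤ n → ((∃ G : SimpleGraph (Fin n), InC G) ↔ 6 ∣ n) := fun n hn =>
    ⟨fun ⟨_, h⟩ => (up hn h).1, fun h => (main hn h).1.imp fun _ h => h.1⟩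
  refine ⟨fun n hn => ⟨A n hn, main hn⟩, ?_⟩
  have : (atTop ⊓ principal {n | ∃ G : SimpleGraph (Fin n), InC G}).NeBot :=
    frequently_mem_iff_neBot.1 (frequently_atTop.2 fun a =>
      ⟨6 * a + 30, by omega, (A _ (by omega)).2 (by omega)⟩)
  refine Tendsto.limsup_eq ?_
  have t : ∀ c : ℝ, Tendsto (fun n : ℕ => 7 / 18 + c / n)
      (atTop ⊓ principal {n | ∃ G : SimpleGraph (Fin n), InC G}) (nhds (7 / 18)) := fun c => by
    simpa using ((tendsto_const_div_atTop_nhds_zero_nat c).const_add (7 / 18)).mono_left inf_le_left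
  have e : ∀ᶠ n : ℕ in atTop ⊓ principal {n | ∃ G : SimpleGraph (Fin n), InC G},
      7 / 18 + (-2 : ℝ) / n ≤ ((sSup (vals n) : ℕ) : ℝ) / n ∧
        ((sSup (vals n) : ℕ) : ℝ) / n ≤ 7 / 18 + 2 / n := by
    rw [eventually_inf_principal]
    filter_upwards [eventually_ge_atTop 30] with n hn h
    have d := (A n hn).1 h
    rw [(main hn d).csSup_eq]
    generalize hk : n / 3 + 2 * ((n + 6) / 36) = k
    have h1 : (7 * n : ℝ) ≤ 18 * k + 36 := by exact_mod_cast (by omega : 7 * n ≤ 18 * k + 36)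
    have h2 : (18 * k : ℝ) ≤ 7 * n + 36 := by exact_mod_cast (by omega : 18 * k ≤ 7 * n + 36)
    have p : (0 : ℝ) < n := by exact_mod_cast (by omega : 0 < n)
    constructor
    · rw [le_div_iff₀ p]; field_simp; linarith
    · rw [div_le_iff₀ p]; field_simp; linarith
  exact tendsto_of_tendsto_of_tendsto_of_le_of_le' (t (-2)) (t 2) (e.mono fun _ h => h.1)
    (e.mono fun _ h => h.2)

end Pool.Agent.Results.MP_e52bc6_co.Exact
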